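import Mathlib

set_option autoImplicit false

namespace Pool.Agent.Results.MP_f151b7_co.Stars

open Finset

lemma edge_iff (m : ℕ) (e : Sym2 (Fin (m + 1))) :
    e ∈ (SimpleGraph.fromRel (fun u _ : Fin (m + 1) => u = 0)).edgeSet ↔
      ∃ v : Fin m, s(0, v.succ) = e := by
  induction e using Sym2.ind with
  | _ a b =>
    simp only [SimpleGraph.mem_edgeSet, SimpleGraph.fromRel_adj]
    constructor
    · rintro ⟨hab, rfl | rfl⟩
      · obtain ⟨v, rfl⟩ := Fin.exists_succ_eq.mpr (Ne.symm hab)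
        exact ⟨v, rfl⟩
      · obtain ⟨v, rfl⟩ := Fin.exists_succ_eq.mpr hab
        exact ⟨v, Sym2.eq_swap⟩
    · rintro ⟨v, h⟩
      rcases Sym2.eq_iff.mp h with ⟨rfl, rfl⟩ | ⟨rfl, rfl⟩
      · exact ⟨(Fin.succ_ne_zero v).symm, Or.inl rfl⟩
      · exact ⟨Fin.succ_ne_zero v, Or.inr rfl⟩

lemma inj (m : ℕ) : Function.Injective (fun v : Fin m => s((0 : Fin (m + 1)), v.succ)) := by
  intro a b h
  rcases Sym2.eq_iff.mp h with ⟨_, h⟩ | ⟨h, _⟩
  · exact Fin.succ_injective _ h
  · exact absurd h.symm (Fin.succ_ne_zero b)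

/-- For every k at least 3 a star with 2k^2 - 6k + 3 edges is a counterexample. -/
theorem result (k : ℕ) (hk : 3 ≤ k) :
    ∃ (n : ℕ) (G : SimpleGraph (Fin n)),
      G.edgeSet.ncard + 6 * k = 2 * k ^ 2 + 3 ∧ k.choose 2 ≤ G.edgeSet.ncard ∧
      ∀ c : Fin n → Fin k, ∃ i : Fin k,
        (({e ∈ G.edgeSet | ∃ v ∈ e, c v = i}.ncard : ℕ) : ℝ)
          < 2 * (G.edgeSet.ncard : ℝ) / (2 * (k : ℝ) - 1) := by
  obtain ⟨j, rfl⟩ := Nat.exists_eq_add_of_le hk
  set m := 2 * j ^ 2 + 6 * j + 3 with hm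
  have hcard : (SimpleGraph.fromRel (fun u _ : Fin (m + 1) => u = 0)).edgeSet.ncard = m := by
    have : (SimpleGraph.fromRel (fun u _ : Fin (m + 1) => u = 0)).edgeSet
        = (fun v : Fin m => s((0 : Fin (m + 1)), v.succ)) '' Set.univ := by
      ext e; rw [edge_iff]; simp
    rw [this, Set.ncard_image_of_injective _ (inj m), Set.ncard_univ]
    simp
  refine ⟨m + 1, SimpleGraph.fromRel (fun u _ => u = 0), ?_, ?_, fun c => ?_⟩
  · rw [hcard, hm]; ring
  · rw [hcard, Nat.choose_two_right, hm]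
    apply Nat.div_le_of_le_mul
    rw [show 3 + j - 1 = 2 + j by omega]
    nlinarith
  · rw [hcard]
    have hex : ∃ i : Fin (3 + j), i ≠ c 0 ∧
        (univ.filter (fun v : Fin m => c v.succ = i)).card ≤ 2 * j + 1 := by
      by_contra hc
      push Not at hc
      have h1 : (univ : Finset (Fin m)).card = ∑ i : Fin (3 + j),
          (univ.filter (fun v : Fin m => c v.succ = i)).card :=
        card_eq_sum_card_fiberwise (fun _ _ => mem_univ _)
      have h2 : ∑ i ∈ univ.erase (c 0), (2 * j + 2) ≤ ∑ i ∈ univ.erase (c 0),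
          (univ.filter (fun v : Fin m => c v.succ = i)).card :=
        sum_le_sum (fun i hi => hc i (mem_erase.mp hi).1)
      have h3 : ∑ i ∈ univ.erase (c 0), (univ.filter (fun v : Fin m => c v.succ = i)).card
          ≤ ∑ i : Fin (3 + j), (univ.filter (fun v : Fin m => c v.succ = i)).card :=
        sum_le_sum_of_subset (erase_subset _ _)
      rw [sum_const, card_erase_of_mem (mem_univ _), card_univ, Fintype.card_fin,
        show 3 + j - 1 = 2 + j by omega, smul_eq_mul] at h2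
      rw [card_univ, Fintype.card_fin] at h1
      nlinarith
    obtain ⟨i, hi, hle⟩ := hex
    refine ⟨i, ?_⟩
    have : {e ∈ (SimpleGraph.fromRel (fun u _ : Fin (m + 1) => u = 0)).edgeSet |
        ∃ v ∈ e, c v = i} = (fun v : Fin m => s((0 : Fin (m + 1)), v.succ)) ''
          (univ.filter (fun v : Fin m => c v.succ = i) : Finset (Fin m)) := by
      ext e
      simp only [Set.mem_ofPred_eq, edge_iff, Set.mem_image, coe_filter, mem_univ, true_and]
      constructor
      · rintro ⟨⟨v, rfl⟩, w, hw, hc⟩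
        rcases Sym2.mem_iff.mp hw with rfl | rfl
        · exact absurd hc.symm hi
        · exact ⟨v, hc, rfl⟩
      · rintro ⟨v, hv, rfl⟩
        exact ⟨⟨v, rfl⟩, v.succ, Sym2.mem_mk_right _ _, hv⟩
    rw [this, Set.ncard_image_of_injective _ (inj m), Set.ncard_coe_finset]
    have h0 : (0 : ℝ) ≤ j := Nat.cast_nonneg j
    have h4 : ((univ.filter (fun v : Fin m => c v.succ = i)).card : ℝ) ≤ 2 * j + 1 := by
      exact_mod_cast hle
    refine lt_of_le_of_lt h4 ?_
    rw [lt_div_iff₀ (by push_cast; linarith), hm]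
    push_cast
    nlinarith

end Pool.Agent.Results.MP_f151b7_co.Stars
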